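import Pool.Agent.Y216.VfC

/-!
MP_4dacf8_ag, Q1: Vojta's height inequality over function fields, for projective pairs with a
generically finite map to the space of the binary forms of degree `n`, which is ramified, outside
the boundary, with any multiplicities, for instance multiplicity two, over the hyperplanes of the
forms which vanish at given constant points of the projective line.
-/

set_option autoImplicit false

namespace Pool.Agent.Results.MP_4dacf8_ag.BinaryForms

open FF MvPolynomial Pool.Agent.W603.LV Pool.Agent.W603.PV Pool.Agent.W601.VF Pool.Agent.Y216

/-- Let `F` be a function field of one variable over the algebraically closed field `k` of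
characteristic zero, `n ≥ 1`, let `(u i : v i)`, `i < q`, be distinct points of the projective line
over `k`, and let `ℓ i` be the hyperplane of the binary forms `∑ l, f l * X ^ (n - l) * Y ^ l` which
vanish at `(u i : v i)`. Let `w i ≤ 1` and `2 * n < ∑ i, w i`.

Let `X` be an integral projective variety over `F` (given by its homogeneous prime ideal `p`), `D`
the divisor `Q = 0` on `X` for a form `Q` of degree `e` which does not vanish on `X`, and let
`φ 0, …, φ n` be forms of the same degree over `F` which define a map from `X` to the projective
`n`-space of the binary forms. Suppose that the map is generically finite onto its image, that the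
image is not contained in one of the hyperplanes `ℓ i`, in the hyperplane `f n = 0` or in the
discriminant hypersurface, and that the map is ramified, outside `D`, over the hyperplanes `ℓ i` with
the weights `w i`.

Then Vojta's inequality holds for `(X, D)`: there are a proper closed subset `G = 0` of `X`
containing `D` and constants `B`, `C` such that the height of every point `x` of `X` over a finite
extension `L` of `F` outside this subset is at most `B * (2 g(L) - 2 + N) + C * [L : F]`, where `N`
is the number of places of `L` at which `x` meets `D`. -/
theorem result {k : Type} [Field k] [IsAlgClosed k] [CharZero k] {F : Type} [Field F] [Algebra k F]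
    [IsFF k F] {n : ℕ} (hn : 1 ≤ n) {q : ℕ} (u v : Fin q → k)
    (huv : ∀ i j, i ≠ j → u i * v j ≠ u j * v i) (w : Fin q → ℝ) (hw : ∀ i, w i ≤ 1)
    (hsum : 2 * (n : ℝ) < ∑ i, w i) {N : ℕ} (p : Ideal (MvPolynomial (Fin (N + 1)) F)) [p.IsPrime]
    (Q : MvPolynomial (Fin (N + 1)) F) (e : ℕ) (φ : Fin (n + 1) → MvPolynomial (Fin (N + 1)) F)
    (S : Finset (Place k F))
    (hA : Admissible p Q e φ fun i (l : Fin (n + 1)) => u i ^ (n - (l : ℕ)) * v i ^ (l : ℕ))
    (hlast : φ (Fin.last n) ∉ p) (hdisc : aeval φ (discForm k n) ∉ p)
    (hR : Ramified.{0, 0, 0} p Q e φ
      (fun i (l : Fin (n + 1)) => u i ^ (n - (l : ℕ)) * v i ^ (l : ℕ)) w S) :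
    Vojta.{0, 0, 0} k p Q e :=
  vojta_rnc hn huv hw hsum hR hA hlast hdisc

end Pool.Agent.Results.MP_4dacf8_ag.BinaryForms
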