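import Pool.Agent.Y741.UFin2

/-!
MP_4dacf8_ag, Q1: Vojta's height inequality with truncated counting function, for all algebraic
points on generic pairs in projective space over function fields (the pairs of a generic complete
intersection and generic hypersurface sections of it), with the exceptional lines removed.

Let `F` be a function field of one variable over an algebraically closed field `k` of characteristic
`0`, the function field of a curve. Let `H_a`, for `a` in a finite set `A`, be forms of degrees
`d_a > 0` in `n + 1` variables over `F` whose coefficients are, for all `a` together, algebraically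
independent over a subfield `F0` of `F` that is finitely generated over a subfield `k0` of `k`. (For
`k` uncountable and `k0` countable, this holds for the very general forms over `k`, and for very
general families of forms, which are not isotrivial.) Let `C` be a subset of `A`. Let `V` be the
complete intersection `H_c = 0`, `c ∈ C`, in projective space of dimension `n`, and let `D` be the
union of the hypersurface sections `H_b = 0`, `b ∉ C`. (All of projective space is allowed for `V`,
and `D = 0` is allowed.) The log canonical class of `(V, D)` is `∑ d_a - n - 1` times a hyperplane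
section. An exceptional line is a line contained in `V` that meets `D` in at most two points.

Suppose that `3 n + 3 ≤ 2 ∑ d_a + |C|`. For `|C| < n` this implies that `∑ d_a ≥ n + 2`, that is,
`(V, D)` is of log general type. Then there is a constant `c`, which depends only on `n`, the degrees
and `C`, such that for all `F` and `H_a` as above there is a constant `B` with:

(1) for all finite extensions `L` of `F` and all points `x` of `V ∖ D` over `L`,
    `h(x) ≤ c (2 g(L) - 2 + N(x)) + B [L : F]`, or `x` lies on an exceptional line (over a given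
    algebraically closed field `Ω` that contains `F`, for instance its algebraic closure);
(2) there are no exceptional lines if `2 n + 1 ≤ ∑ d_a + |C|`, or if `D = 0` and
    `2 n - 1 ≤ ∑ (d_a + 1)`;
(3) every closed subvariety `Y` of `V ∖ D` of positive dimension `w ≥ 2 n + 2 - (∑ d_a + |C|)` (over
    `Ω`) is of log general type, and contains a proper closed subset `G = 0` such that the inequality
    of (1) holds for all algebraic points that are not in `G = 0`. For `|C| < n`, this includes
    `Y = V ∖ D`: the conjecture holds for the pair `(V, D)`.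

Here `pht k x = h(x)` is the height of `x` with respect to `O(1)` and `L`, minus the sum over all
places of `L` of the minimum of the orders of the coordinates; it is `[L : F]` times the height
relative to `F`. The truncated counting function `N(x)` (relative to `L`) is the number of the places
`P` of `L` at which `x` meets `D`: `d_b min_i ord_P (x_i) < ord_P (H_b (x))` for some `b` not in `C`.
And `canDeg k L` is `2 g(L) - 2`.

In (3), `K` is the function field of the subvariety, or a finite extension of it, and `y` is its
generic point, in homogeneous coordinates; the prime divisors `Q` over its closure with centre in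
`D` are given by the same inequality.
-/

set_option autoImplicit false

namespace Pool.Agent.Results.MP_4dacf8_ag.GenericLogPairs

open MvPolynomial FF Pool.Agent.W603.LV Pool.Agent.W603.PV Pool.Agent.W602.GT
  Pool.Agent.TH145.MG LinearAlgebra.Projectivization

/-- The field `F0` is finitely generated over `k0`. -/
def FinGen (k0 F0 : Type) [Field k0] [Field F0] [Algebra k0 F0] : Prop :=
  ∃ S : Finset F0, IntermediateField.adjoin k0 (S : Set F0) = ⊤

/-- Forms of degrees `d a` whose coefficients are algebraically independent over `F0`. -/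
def Generic {F A : Type} (F0 : Type) [Field F0] [Field F] [Algebra F0 F] {n : ℕ}
    (H : A → MvPolynomial (Fin (n + 1)) F) (d : A → ℕ) : Prop :=
  (∀ a, (H a).IsHomogeneous (d a)) ∧
    AlgebraicIndependent F0 fun p : (a : A) × {I : Fin (n + 1) →₀ ℕ // I.degree = d a} =>
      (H p.1).coeff p.2.1

/-- The forms over a larger field. -/
noncomputable def ext {F A : Type} [Field F] {n : ℕ} (H : A → MvPolynomial (Fin (n + 1)) F)
    (Ω : Type) [Field Ω] [Algebra F Ω] (a : A) : MvPolynomial (Fin (n + 1)) Ω :=
  map (algebraMap F Ω) (H a)

/-- The point `x` of projective space is in `H c = 0` for `c ∈ C`, and not in `H b = 0` for the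
other `b`. -/
def OnPair {F L A : Type} [Field F] [Field L] [Algebra F L] {n : ℕ}
    (H : A → MvPolynomial (Fin (n + 1)) F) (C : Finset A) (x : Fin (n + 1) → L) : Prop :=
  x ≠ 0 ∧ (∀ c ∈ C, aeval x (H c) = 0) ∧ ∀ b, b ∉ C → aeval x (H b) ≠ 0

/-- The places of `L` at which the point `x` meets one of the hypersurfaces `H b = 0`, `b ∉ C`. -/
def Meets (k : Type) {F L A : Type} [Field k] [Field F] [Field L] [Algebra k L] [Algebra F L]
    {n : ℕ} (H : A → MvPolynomial (Fin (n + 1)) F) (d : A → ℕ) (C : Finset A)
    (x : Fin (n + 1) → L) : Set (Place k L) :=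
  {P | ∃ b, b ∉ C ∧ d b * pord P x < P.ord (aeval x (H b))}

/-- The height inequality for the point `x` over `L`. -/
def Ineq (k : Type) {F L A : Type} [Field k] [Field F] [Field L] [Algebra k L] [Algebra F L]
    {n : ℕ} (H : A → MvPolynomial (Fin (n + 1)) F) (d : A → ℕ) (C : Finset A) (c B : ℕ)
    (x : Fin (n + 1) → L) : Prop :=
  pht k x ≤ c * (canDeg k L + (Meets k H d C x).ncard) + B * Module.finrank F L

/-- A line, given by a vector space of dimension two, that is contained in `H c = 0` for all `c` in
`C`. -/
def IsLine {K A : Type} [Field K] {n : ℕ} (H : A → MvPolynomial (Fin (n + 1)) K) (C : Finset A)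
    (W : Submodule K (Fin (n + 1) → K)) : Prop :=
  Module.finrank K W = 2 ∧ ∀ c ∈ C, ∀ v ∈ W, eval v (H c) = 0

/-- The points of the line where `H b = 0` for some `b ∉ C`. -/
def Boundary {K A : Type} [Field K] {n : ℕ} (H : A → MvPolynomial (Fin (n + 1)) K) (C : Finset A)
    (W : Submodule K (Fin (n + 1) → K)) : Set (ℙ K (Fin (n + 1) → K)) :=
  {p | p.rep ∈ W ∧ ∃ b, b ∉ C ∧ eval p.rep (H b) = 0}

/-- A line contained in `H c = 0` for all `c` in `C` that meets the union of the hypersurfaces
`H b = 0`, `b ∉ C`, in at most two points. -/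
def Exceptional {K A : Type} [Field K] {n : ℕ} (H : A → MvPolynomial (Fin (n + 1)) K)
    (C : Finset A) (W : Submodule K (Fin (n + 1) → K)) : Prop :=
  IsLine H C W ∧ (Boundary H C W).encard ≤ 2

/-- The height inequality holds for all algebraic points that do not lie on exceptional lines over
`Ω`. -/
def OffLines (k : Type) {F A : Type} [Field k] [Field F] [Algebra k F] {n : ℕ}
    (H : A → MvPolynomial (Fin (n + 1)) F) (d : A → ℕ) (C : Finset A) (c B : ℕ)
    (Ω : Type) [Field Ω] [Algebra F Ω] : Prop :=
  ∀ (L : Type) [Field L] [Algebra k L] [Algebra F L] [IsScalarTower k F L]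
    [FiniteDimensional F L] (φ : L →ₐ[F] Ω) (x : Fin (n + 1) → L), OnPair H C x →
      Ineq k H d C c B x ∨ ∃ W, Exceptional (ext H Ω) C W ∧ (fun j => φ (x j)) ∈ W

/-- The height inequality holds for all algebraic points that do not lie in `G = 0`. -/
def OffForm (k : Type) {F A : Type} [Field k] [Field F] [Algebra k F] {n : ℕ}
    (H : A → MvPolynomial (Fin (n + 1)) F) (d : A → ℕ) (C : Finset A) (c B : ℕ)
    {Ω : Type} [Field Ω] [Algebra F Ω] (G : MvPolynomial (Fin (n + 1)) Ω) : Prop :=
  ∀ (L : Type) [Field L] [Algebra k L] [Algebra F L] [IsScalarTower k F L]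
    [FiniteDimensional F L] (φ : L →ₐ[F] Ω) (x : Fin (n + 1) → L), OnPair H C x →
      eval (fun j => φ (x j)) G ≠ 0 → Ineq k H d C c B x

/-- `K` is (a finite extension of) the function field, and `y` the generic point, of a subvariety of
dimension `w` of the complement of `H b = 0`, `b ∉ C`, in `H c = 0`, `c ∈ C`. -/
def Subvariety {Ω A K : Type} [Field Ω] [Field K] [Algebra Ω K] {n : ℕ}
    (H : A → MvPolynomial (Fin (n + 1)) Ω) (C : Finset A) (w : ℕ) (y : Fin (n + 1) → K) : Prop :=
  OnPair H C y ∧ Algebra.trdeg Ω K = w ∧ Algebra.IsAlgebraic (coords Ω y) K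

/-- The subvariety with generic point `y` is of log general type. -/
def LogGT {Ω A K : Type} [Field Ω] [Field K] [Algebra Ω K] {n : ℕ}
    (H : A → MvPolynomial (Fin (n + 1)) Ω) (d : A → ℕ) (C : Finset A) (w : ℕ)
    (y : Fin (n + 1) → K) : Prop :=
  LogGeneralType Ω K w fun Q : Place Ω K =>
    ∃ b, b ∉ C ∧ d b * pord Q y < Q.ord (aeval y (H b))

theorem result {n : ℕ} (hn : 1 ≤ n) {A : Type} [Fintype A] [DecidableEq A] {d : A → ℕ}
    (hd0 : ∀ a, 0 < d a)
    -- the equations are `H c = 0` for `c ∈ C`, and the other forms give the boundary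
    (C : Finset A) (hd : 3 * n + 3 ≤ 2 * ∑ a, d a + C.card) :
    ∃ c : ℕ, ∀ (k0 k F0 F : Type) [Field k0] [Field k] [Field F0] [Field F] [IsAlgClosed k]
      [CharZero k] [Algebra k0 k] [Algebra k F] [Algebra k0 F] [IsScalarTower k0 k F]
      [Algebra k0 F0] [Algebra F0 F] [IsScalarTower k0 F0 F] [IsFF k F], FinGen k0 F0 →
      ∀ (H : A → MvPolynomial (Fin (n + 1)) F), Generic F0 H d →
      ∃ B : ℕ, ∀ (Ω : Type) [Field Ω] [Algebra F Ω] [IsAlgClosed Ω],
        -- (1) the height inequality for the points that do not lie on exceptional lines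
        OffLines k H d C c B Ω ∧
        -- (2) there are no exceptional lines in large degree
        ((2 * n + 1 ≤ ∑ a, d a + C.card ∨ (C = Finset.univ ∧ 2 * n ≤ ∑ a, d a + C.card + 1)) →
          ∀ W, ¬ Exceptional (ext H Ω) C W) ∧
        -- (3) closed subvarieties of large dimension: log general type, and the height inequality
        -- outside of a proper closed subset
        ∀ (K : Type) [Field K] [Algebra Ω K] (w : ℕ) (y : Fin (n + 1) → K), 0 < w →
          2 * n + 2 ≤ ∑ a, d a + C.card + w → Subvariety (ext H Ω) C w y →
          LogGT (ext H Ω) d C w y ∧ ∃ (G : MvPolynomial (Fin (n + 1)) Ω) (e : ℕ),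
            G.IsHomogeneous e ∧ aeval y G ≠ 0 ∧ OffForm k H d C c B G := by
  obtain ⟨c, hc⟩ := Pool.Agent.Y741.generic_vojta hn hd0 C hd
  refine ⟨c, ?_⟩
  intro k0 k F0 F _ _ _ _ _ _ _ _ _ _ _ _ _ _ hfg H hH
  obtain ⟨B, hB⟩ := hc k0 k F0 F hfg H hH.1 hH.2
  refine ⟨B, fun Ω _ _ _ => ?_⟩
  obtain ⟨h1, h2, h3⟩ := hB Ω
  refine ⟨fun L _ _ _ _ _ φ x hx => h1 L φ x hx.1 hx.2.1 hx.2.2, h2, ?_⟩
  intro K _ _ w y hw hdw hy
  obtain ⟨h4, G, e, h5, h6, h7⟩ := h3 K w y hw hdw hy.2.1 hy.1.1 hy.2.2 hy.1.2.1 hy.1.2.2
  exact ⟨h4, G, e, h5, h6, fun L _ _ _ _ _ φ x hx hG => h7 L φ x hx.1 hx.2.1 hx.2.2 hG⟩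

end Pool.Agent.Results.MP_4dacf8_ag.GenericLogPairs
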