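import Pool.Agent.Y735.V.Surf
import Pool.Agent.Y735.Irred

/-!
MP_4dacf8_ag, Q1, `D = 0`: Vojta's height inequality for the points over each fixed finite extension
of generic surfaces of degree at least `5` in projective space of dimension `3`.

Let `k` be an algebraically closed field of characteristic zero, and `K` a function field of one
variable over `k`. Let `X` be the surface `H = 0` in projective space of dimension `3`, for a form
`H` over `K` of degree `d ≥ 5` whose coefficients are algebraically independent over a subfield `K0`
of `K` that is finitely generated over a subfield `k0` of `k`. (For `k` uncountable and `k0`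
countable, this holds for the very general surfaces over `k`, and for very general families of
surfaces, which are not isotrivial.) The canonical class of `X` is `d - 4` times a hyperplane
section, so it is ample. Then:

* `X` is geometrically irreducible;
* for each finite extension `L` of `K` (in particular for `L = K`) there is a constant `B` such that
  all points `x` of `X` over `L` satisfy `(d - 4) h(x) ≤ B`.

This is the inequality in the conjecture for `D = 0` and the points over the fixed extension `L`
(with a constant depending on `L`), outside the empty set. The condition `d ≥ 5` means that `X` is of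
general type. The case of interest is that of quintic surfaces (for points of all degrees over
surfaces of degree `d ≥ 6`, see `GenericHypersurfaces`). Here `pht k x`
is the height of `x`, minus the sum over all places of `L` of the minimum of the orders of the
coordinates.

The proof is by contradiction: points of unbounded height give a point over the ultrapower of `L`,
and the elements of bounded height form an algebraically closed subfield. For quintic surfaces, the
ratios of certain determinants in the derivatives of the point lie in this subfield, and linear
algebra over it shows that the point lies on a line or a conic defined over it. As the line or conic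
is not contained in `X`, the point is of bounded height.
-/

set_option autoImplicit false

namespace Pool.Agent.Results.MP_4dacf8_ag.GenericSurfacesRational

open FF MvPolynomial Pool.Agent.W603.LV Pool.Agent.W603.PV

theorem result {k0 k K0 K : Type} [Field k0] [Field k] [Field K0] [Field K] [IsAlgClosed k]
    [CharZero k] [Algebra k0 k] [Algebra k K] [Algebra k0 K] [IsScalarTower k0 k K]
    [Algebra k0 K0] [Algebra K0 K] [IsScalarTower k0 K0 K] [IsFF k K]
    (hfg : ∃ S : Finset K0, IntermediateField.adjoin k0 (S : Set K0) = ⊤) {d : ℕ} (hd : 5 ≤ d)
    -- a form of degree `d` with independent coefficients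
    {H : MvPolynomial (Fin (3 + 1)) K} (hH : H.IsHomogeneous d)
    (hgen : AlgebraicIndependent K0 fun I : {I : Fin (3 + 1) →₀ ℕ // I.degree = d} =>
      H.coeff I.1) :
    -- the surface is geometrically irreducible
    Irreducible (map (algebraMap K (AlgebraicClosure K)) H) ∧
    -- the heights of the points over each finite extension are bounded
    ∀ (L : Type) [Field L] [Algebra k L] [Algebra K L] [IsScalarTower k K L]
      [FiniteDimensional K L], ∃ B : ℤ, ∀ x : Fin (3 + 1) → L, x ≠ 0 → aeval x H = 0 →
        (d - 4) * pht k x ≤ B := by
  classical
  have hK : CharZero K := charZero_of_injective_algebraMap (algebraMap k K).injective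
  have hKc : CharZero (AlgebraicClosure K) :=
    charZero_of_injective_algebraMap (algebraMap K (AlgebraicClosure K)).injective
  constructor
  · obtain ⟨G, hG⟩ : ∃ G, G = map (algebraMap K (AlgebraicClosure K)) H := ⟨_, rfl⟩
    have hGh : G.IsHomogeneous d := hG ▸ hH.map _
    have hGgen : AlgebraicIndependent K0 fun I : {I : Fin (3 + 1) →₀ ℕ // I.degree = d} =>
        G.coeff I.1 := by
      have h3 := hgen.map' (f := IsScalarTower.toAlgHom K0 K (AlgebraicClosure K))
        (algebraMap K (AlgebraicClosure K)).injective
      have h4 : (fun I : {I : Fin (3 + 1) →₀ ℕ // I.degree = d} => G.coeff I.1) =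
          (IsScalarTower.toAlgHom K0 K (AlgebraicClosure K)) ∘ fun I => H.coeff I.1 := by
        funext I
        rw [hG, coeff_map]
        rfl
      rw [h4]
      exact h3
    rw [← hG]
    have hdeg : (Finsupp.single (Fin.last 3) d).degree = d := Finsupp.degree_single _ _
    exact Pool.Agent.Y735.irreducible_gen (by norm_num) (by omega) hGh ⟨_, hdeg⟩
      (hGgen.ne_zero ⟨_, hdeg⟩) (Pool.Agent.Y735.V.ratio_indep hGgen ⟨_, hdeg⟩)
  · intro L _ _ _ _ _
    obtain ⟨B, hB⟩ := Pool.Agent.Y735.V.bounded_L (k0 := k0) (k := k) hfg hd hH hgen L
    refine ⟨(d - 4) * B, fun x hx hxH => ?_⟩
    have h1 : (0 : ℤ) ≤ (d : ℤ) - 4 := by omega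
    exact mul_le_mul_of_nonneg_left (hB x hx hxH) h1

end Pool.Agent.Results.MP_4dacf8_ag.GenericSurfacesRational
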