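import Mathlib
import Pool.Agent.Y731.GO.Ff

set_option autoImplicit false

/-!
# MP_4dacf8_ag: Vojta's height inequality over function fields for all pairs of log general type, at
# the points with sparse coordinates

`F` is a function field of one variable over an algebraically closed field `k` of characteristic
zero, `X` a smooth projective variety of dimension `N` over `F` in `ℙ^(N + s)` with the equations
`G j = 0` (any number of them), `D = D_1 + ⋯ + D_q` a divisor of `X` with strict normal crossings,
`D_i` the subvariety of `X` with the equations `E i j = 0`, `j < w`, `E i j` of degree `d i j` (not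
necessarily a hypersurface section). Neither `X` nor `D` is assumed to be defined over `k`.

For a finite extension `L` of `F` and a point `x` of `X` over `L` the numbers `h_(K + D)(x)`, `χ(x)` and
`N^(1)_D(x)` are normalised as in the problem (divided by `[L : F]`). Every coordinate of `x` is
written as a sum of `m` elements `t c j` of `L`, and `ν(t)` is the number, divided by `[L : F]`, of the
places of `L` at which not all nonzero `t c j` have the same order and which are neither over a place
of `S` nor on `D`. So `ν(t) = 0` if the `t c j` are units outside `S` and `D`, up to a common factor.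

The inequality is `h_(K + D)(x) ≤ C (χ(x) + N^(1)_D(x) + ν(t)) + C'`, for all points, of unbounded
degree, outside a proper closed subset.
-/

namespace Pool.Agent.Results.MP_4dacf8_ag.SparsePoints

open MvPolynomial FF Pool.Agent.W603.PV

section defs

variable {k F L : Type} [Field k] [Field F] [Field L] [Algebra k L] [Algebra F L]

/-- the minimum of the orders of the nonzero entries of `x` at the place `P` -/
noncomputable def minOrd {ι : Type} (P : Place k L) (x : ι → L) : ℤ :=
  ⨅ c : {c // x c ≠ 0}, P.ord (x c.1)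

variable (k) in
/-- The height of the point with the homogeneous coordinates `x`: minus the sum over all places of
the minimum of the orders of the coordinates. -/
noncomputable def height {ι : Type} (x : ι → L) : ℤ := -∑ᶠ P : Place k L, minOrd P x

/-- `x` is a point of the variety `X`. -/
def OnX {n g : ℕ} (G : Fin g → MvPolynomial (Fin n) F) (x : Fin n → L) : Prop :=
  ∀ j, aeval x (G j) = 0

/-- The local height at `P` with respect to the subvariety with the equations `E j = 0`, `E j` of
degree `d j`: the minimum of the orders of `E j (x) / x_c ^ d j`, `x_c` a coordinate of minimal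
order. -/
noncomputable def localHeight {n w : ℕ} (E : Fin w → MvPolynomial (Fin n) F) (d : Fin w → ℕ)
    (P : Place k L) (x : Fin n → L) : ℤ :=
  ⨅ j : {j // aeval x (E j) ≠ 0}, (P.ord (aeval x (E j.1)) - d j.1 * minOrd P x)

variable (k) in
/-- The height `h_(D_i)(x)` for the divisor with the equations `E j = 0`: the sum of all local
heights. -/
noncomputable def componentHeight {n w : ℕ} (E : Fin w → MvPolynomial (Fin n) F)
    (d : Fin w → ℕ) (x : Fin n → L) : ℤ :=
  ∑ᶠ P : Place k L, localHeight E d P x

/-- The columns of `A` are a basis of the tangent space of the affine cone over `X` at `x` (the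
vectors orthogonal to all gradients of equations), `X` being smooth of dimension `N` at `x`. -/
def IsTangentBasis {n N g : ℕ} (G : Fin g → MvPolynomial (Fin n) F) (x : Fin n → L)
    (A : Matrix (Fin n) (Fin (N + 1)) L) : Prop :=
  LinearIndependent L (fun c : Fin (N + 1) => fun j : Fin n => A j c) ∧
    ∀ j c, ∑ a, aeval x (pderiv a (G j)) * A a c = 0

variable (k) in
/-- The height `h_K(x)` for the canonical class `K` of `X`. The Gauss map `γ` sends a point of `X` to
its embedded tangent space, `γ^* O(1) = K + (N + 1) H` for the hyperplane class `H`, and `h_K(x)` is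
the height of `γ(x)` (of the vector of the Pluecker coordinates, the maximal minors of `A`) minus
`(N + 1) h(x)`. -/
noncomputable def canonicalHeight {n N : ℕ} (x : Fin n → L) (A : Matrix (Fin n) (Fin (N + 1)) L) :
    ℤ :=
  height k (fun J : Fin (N + 1) → Fin n => (A.submatrix J id).det) - (N + 1) * height k x

variable (k) in
/-- The places of `L` at which not all nonzero `t c j` have the same order. -/
def unequal {n m : ℕ} (t : Fin n → Fin m → L) : Set (Place k L) :=
  {P | ∃ c j c' j', t c j ≠ 0 ∧ t c' j' ≠ 0 ∧ P.ord (t c j) ≠ P.ord (t c' j')}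

variable (k F) in
/-- the height `h_(K + D)(x)`, divided by `[L : F]` -/
noncomputable def logCanonicalHeight {n N q w : ℕ} (E : Fin q → Fin w → MvPolynomial (Fin n) F)
    (d : Fin q → Fin w → ℕ) (x : Fin n → L) (A : Matrix (Fin n) (Fin (N + 1)) L) : ℝ :=
  ((canonicalHeight k x A + ∑ i, componentHeight k (E i) (d i) x : ℤ) : ℝ) / Module.finrank F L

variable (k F L) in
/-- `χ = (2 g - 2) / [L : F]`, `g` the genus of `L` -/
noncomputable def chi : ℝ := (Pool.Agent.W603.LV.canDeg k L : ℝ) / Module.finrank F L

variable (k) in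
/-- The truncated counting function `N^(1)_D(x)`: the number of the places at which the local height of
`x` with respect to some `D_i` is positive, divided by `[L : F]`. -/
noncomputable def truncatedCounting {n q w : ℕ} (E : Fin q → Fin w → MvPolynomial (Fin n) F)
    (d : Fin q → Fin w → ℕ) (x : Fin n → L) : ℝ :=
  ({P : Place k L | ∃ i, 0 < localHeight (E i) (d i) P x}.ncard : ℝ) / Module.finrank F L

/-- `ν(t)`: the number of the places of `L` at which not all nonzero `t c j` have the same order and
which are neither over a place of `S` nor on `D`, divided by `[L : F]`. -/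
noncomputable def nu [Algebra k F] [IsScalarTower k F L] [IsAlgClosed k] [CharZero k]
    [IsFF k F] [IsFF k L] {n q w m : ℕ} (S : Finset (Place k F))
    (E : Fin q → Fin w → MvPolynomial (Fin n) F) (d : Fin q → Fin w → ℕ) (x : Fin n → L)
    (t : Fin n → Fin m → L) : ℝ :=
  ({P : Place k L | P ∈ unequal k t ∧ under F P ∉ S ∧
    ∀ i, localHeight (E i) (d i) P x ≤ 0}.ncard : ℝ) / Module.finrank F L

end defs

/-- The dimension of `X` is at least `N`: some `N + 1` coordinates are algebraically independent on
the cone over `X`. -/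
def DimGE {F : Type} [Field F] {n g : ℕ} (N : ℕ) (G : Fin g → MvPolynomial (Fin n) F) : Prop :=
  ∃ J : Fin (N + 1) → Fin n, ∀ P : MvPolynomial (Fin (N + 1)) F,
    (∀ z : Fin n → AlgebraicClosure F, OnX G z → aeval (fun i => z (J i)) P = 0) → P = 0

/-- `X` is smooth of codimension `s` and `D` has strict normal crossings on `X`: at each point `z` of
`X` over an algebraic closure of `F`, for suitable `s` equations of `X` and one equation of each
component of `D` through `z` all gradients at `z` are linearly independent. -/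
def SmoothPair {F : Type} [Field F] {n g q w : ℕ} (s : ℕ) (G : Fin g → MvPolynomial (Fin n) F)
    (E : Fin q → Fin w → MvPolynomial (Fin n) F) : Prop :=
  ∀ z : Fin n → AlgebraicClosure F, z ≠ 0 → OnX G z →
    ∃ (T : Fin s → Fin g) (J : Fin q → Fin w), LinearIndependent (AlgebraicClosure F)
      (Sum.elim
        (fun a : Fin s => fun c : Fin n => aeval z (pderiv c (G (T a))))
        (fun i : {i : Fin q // ∀ j, aeval z (E i j) = 0} => fun c : Fin n =>
          aeval z (pderiv c (E i.1 (J i.1)))))

/-- The form `P` does not vanish on `X`. -/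
def NonZeroOn {F : Type} [Field F] {n g : ℕ} (G : Fin g → MvPolynomial (Fin n) F)
    (P : MvPolynomial (Fin n) F) : Prop :=
  ∃ z : Fin n → AlgebraicClosure F, OnX G z ∧ aeval z P ≠ 0

/-- `X` is irreducible. -/
def Irred {F : Type} [Field F] {n g : ℕ} (G : Fin g → MvPolynomial (Fin n) F) : Prop :=
  ∀ P Q : MvPolynomial (Fin n) F, NonZeroOn G P → NonZeroOn G Q → NonZeroOn G (P * Q)

/-- `(X, D)` is of log general type, `K + D` is big, in terms of heights: the height (divided by
`[L : F]`) is at most `a h_(K + D) + b` for some `a > 0` and `b`, at the points over all finite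
extensions `L` of `F` outside a proper closed subset. (If `K + D` is big then, by Kodaira's lemma,
`a (K + D) - H` is effective for some `a > 0`.) -/
def LogGeneralType (k : Type) {F : Type} [Field k] [Field F] [Algebra k F] [IsAlgClosed k]
    [CharZero k] [IsFF k F] {n g q w : ℕ} (N : ℕ) (G : Fin g → MvPolynomial (Fin n) F)
    (E : Fin q → Fin w → MvPolynomial (Fin n) F) (d : Fin q → Fin w → ℕ) : Prop :=
  ∃ (Ψ : MvPolynomial (Fin n) F) (r : ℕ) (a b : ℝ), Ψ.IsHomogeneous r ∧ NonZeroOn G Ψ ∧ 0 < a ∧
    ∀ (L : Type) [Field L] [Algebra k L] [Algebra F L] [IsScalarTower k F L]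
      [FiniteDimensional F L] [IsFF k L] (x : Fin n → L), x ≠ 0 → OnX G x →
      (∀ i, ∃ j, aeval x (E i j) ≠ 0) → aeval x Ψ ≠ 0 →
        ∃ A : Matrix (Fin n) (Fin (N + 1)) L, IsTangentBasis G x A ∧
          (height k x : ℝ) / Module.finrank F L ≤ a * logCanonicalHeight k F E d x A + b

/-- **Main theorem.** Let `F` be a function field of one variable over an algebraically closed field
`k` of characteristic zero, `X` a smooth irreducible projective variety of dimension `N` over `F` in
`ℙ^(N + s)` and `D = D_1 + ⋯ + D_q` a divisor of `X` with strict normal crossings, such that `(X, D)`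
is of log general type. Let `S` be a finite set of places of `F` and `m` a number. There are a form
`Φ` over `F` that does not vanish on `X` and constants `C`, `C'` such that for all finite extensions
`L` of `F`, all points `x` of `X` over `L`, off `D` and off `Φ = 0`, and all representations of the
coordinates of `x` as sums of `m` elements `t c j` of `L`
`h_(K + D)(x) ≤ C (χ(x) + N^(1)_D(x) + ν(t)) + C'`. In particular
`h_(K + D)(x) ≤ C (χ(x) + N^(1)_D(x)) + C'` if the `t c j` have the same order at each place which is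
neither over `S` nor on `D`. -/
theorem result {k F : Type} [Field k] [IsAlgClosed k] [CharZero k] [Field F] [Algebra k F]
    [IsFF k F] (N s g q w m : ℕ) (G : Fin g → MvPolynomial (Fin (N + 1 + s)) F) (e : Fin g → ℕ)
    (hG : ∀ j, (G j).IsHomogeneous (e j))
    (E : Fin q → Fin w → MvPolynomial (Fin (N + 1 + s)) F) (d : Fin q → Fin w → ℕ)
    (hE : ∀ i j, (E i j).IsHomogeneous (d i j)) (hdim : DimGE N G) (hsm : SmoothPair s G E)
    (hirr : Irred G) (hgt : LogGeneralType k N G E d) (S : Finset (Place k F)) :
    ∃ (Φ : MvPolynomial (Fin (N + 1 + s)) F) (n : ℕ) (C C' : ℝ), Φ.IsHomogeneous n ∧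
      NonZeroOn G Φ ∧
      ∀ (L : Type) [Field L] [Algebra k L] [Algebra F L] [IsScalarTower k F L]
        [FiniteDimensional F L] [IsFF k L] (x : Fin (N + 1 + s) → L)
        (t : Fin (N + 1 + s) → Fin m → L), x ≠ 0 → OnX G x → (∀ i, ∃ j, aeval x (E i j) ≠ 0) →
        aeval x Φ ≠ 0 → (∀ c, x c = ∑ j, t c j) →
        (∃ A : Matrix (Fin (N + 1 + s)) (Fin (N + 1)) L, IsTangentBasis G x A) ∧
        ∀ A : Matrix (Fin (N + 1 + s)) (Fin (N + 1)) L, IsTangentBasis G x A →
          logCanonicalHeight k F E d x A ≤
            C * (chi k F L + truncatedCounting k E d x + nu S E d x t) + C' ∧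
          ((∀ P : Place k L, under F P ∉ S → (∀ i, localHeight (E i) (d i) P x ≤ 0) →
            P ∉ unequal k t) →
            logCanonicalHeight k F E d x A ≤ C * (chi k F L + truncatedCounting k E d x) + C') := by
  classical
  obtain ⟨J, hJ⟩ := hdim
  obtain ⟨Ψ, n', a, b, hΨ, hΨX, ha, hbig⟩ := hgt
  obtain ⟨Φ, C, ⟨n, hn⟩, hΦ0, hmain⟩ := Pool.Agent.Y731.FG.fgMain (k := k) m G e hG E d hE
    (fun z hz hzG => by
      obtain ⟨T, J', h⟩ := hsm z hz hzG
      exact ⟨T, J', h⟩) J (1 / (2 * a)) (by positivity)
  obtain ⟨C1, hC1⟩ := Pool.Agent.Y731.GO.disc_le_canDeg (k := k) (F := F)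
  set c0 : ℤ := ∑ v ∈ S, Pool.Agent.W603.LV.hgt k (Pool.Agent.W603.LV.unif v) with hc0
  have hc0' : (0 : ℝ) ≤ c0 := by
    exact_mod_cast Finset.sum_nonneg fun v _ => Pool.Agent.W603.LV.hgt_nonneg _
  have hΦX : NonZeroOn G (rename J Φ) := by
    by_contra hcon
    apply hΦ0
    apply hJ
    intro z hz
    by_contra h0
    apply hcon
    refine ⟨z, hz, ?_⟩
    rw [aeval_rename]
    exact h0
  refine ⟨rename J Φ * Ψ, n + n', 2 + 2 * C, |b| / a + 2 * C * (1 + C1 + c0) + 2 * C1,
    hn.rename_isHomogeneous.mul hΨ, hirr _ _ hΦX hΨX, ?_⟩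
  intro L _ _ _ _ _ _ x t hx hX hEx hΦ hxt
  rw [map_mul, aeval_rename] at hΦ
  obtain ⟨A0, hA0, hle0⟩ := hbig L x hx hX hEx (right_ne_zero_of_mul hΦ)
  refine ⟨⟨A0, hA0⟩, fun A hA => ?_⟩
  have hx0 : ∃ c, x c ≠ 0 := by
    by_contra hno
    push Not at hno
    exact hx (funext hno)
  have hfr : (1 : ℝ) ≤ Module.finrank F L := by
    exact_mod_cast Module.finrank_pos (R := F) (M := L)
  have hfr0 : (0 : ℝ) < Module.finrank F L := by linarith
  have hle1 : (height k x : ℝ) ≤ a * ((canonicalHeight k x A0 +
      ∑ i, componentHeight k (E i) (d i) x : ℤ) : ℝ) + b * Module.finrank F L := by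
    unfold logCanonicalHeight at hle0
    rw [div_le_iff₀ hfr0] at hle0
    have h1 : (a * (((canonicalHeight k x A0 + ∑ i, componentHeight k (E i) (d i) x : ℤ) : ℝ) /
        Module.finrank F L) + b) * Module.finrank F L = a * ((canonicalHeight k x A0 +
      ∑ i, componentHeight k (E i) (d i) x : ℤ) : ℝ) + b * Module.finrank F L := by
      field_simp
    rwa [h1] at hle0
  -- the height of the Gauss map does not depend on the basis
  have hAA : canonicalHeight k x A = canonicalHeight k x A0 := by
    obtain ⟨T, hT⟩ := Pool.Agent.Y731.FG.exists_indep (G := G) (Fd := E) (s := s)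
      (fun z hz hzG => by
        obtain ⟨T, J', h⟩ := hsm z hz hzG
        exact ⟨T, J', h⟩) x hx0 hX
    obtain ⟨J1, hJ1⟩ := Pool.Agent.Y731.FG.exists_minor (fun (ρ : Fin (N + 1))
      (c : Fin (N + 1 + s)) => A0 c ρ) hA0.1
    have h1 := (Pool.Agent.Y731.FG.gauss (k := k) hG (fun z hz hzG => by
        obtain ⟨T, J', h⟩ := hsm z hz hzG
        exact ⟨T, J', h⟩) x hx0 hX A hA.1 hA.2 (fun (ρ : Fin (N + 1))
      (c : Fin (N + 1 + s)) => A0 c ρ) hA0.2 ⟨J1, hJ1⟩).2
    have h2 : (fun J : Fin (N + 1) → Fin (N + 1 + s) => (Matrix.of fun ρ b => A0 (J b) ρ).det) =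
        fun J : Fin (N + 1) → Fin (N + 1 + s) => (A0.submatrix J id).det := by
      funext J
      rw [← Matrix.det_transpose]
      rfl
    rw [h2] at h1
    unfold canonicalHeight
    have h3 : height k (fun J : Fin (N + 1) → Fin (N + 1 + s) => (A.submatrix J id).det) =
        height k (fun J : Fin (N + 1) → Fin (N + 1 + s) => (A0.submatrix J id).det) := h1
    rw [h3]
  rw [← hAA] at hle1
  have h1 := hmain L x t A hX hEx hxt (left_ne_zero_of_mul hΦ) hA.1 hA.2
  set H : ℝ := ((canonicalHeight k x A + ∑ i, componentHeight k (E i) (d i) x : ℤ) : ℝ) with hH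
  set N1 : ℝ := ({P : Place k L | ∃ i, 0 < localHeight (E i) (d i) P x}.ncard : ℝ) with hN1
  set U : ℝ := ((unequal k t).ncard : ℝ) with hU
  set V : Set (Place k L) := {P : Place k L | P ∈ unequal k t ∧ under F P ∉ S ∧
    ∀ i, localHeight (E i) (d i) P x ≤ 0} with hV
  set f : ℝ := (Module.finrank F L : ℝ) with hf
  have h1' : H ≤ N1 + 1 / (2 * a) * height k x + C * (f + disc k F L + U) := h1
  have h2 : 1 / (2 * a) * (height k x : ℝ) ≤ H / 2 + |b| / (2 * a) * f := by
    have h3 : b * f ≤ |b| * f := mul_le_mul_of_nonneg_right (le_abs_self b) hfr0.le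
    have h4 : (height k x : ℝ) ≤ a * H + |b| * f := by linarith
    have h5 := mul_le_mul_of_nonneg_left h4 (by positivity : (0 : ℝ) ≤ 1 / (2 * a))
    have h6 : 1 / (2 * a) * (a * H + |b| * f) = H / 2 + |b| / (2 * a) * f := by
      field_simp
    rwa [h6] at h5
  have hCn : (0 : ℝ) ≤ C := Nat.cast_nonneg C
  have hd1 : (disc k F L : ℝ) ≤ Pool.Agent.W603.LV.canDeg k L + C1 * f := by
    have := hC1 L
    rw [hf]
    exact_mod_cast this
  have hd0 : (0 : ℝ) ≤ disc k F L := by
    exact_mod_cast Pool.Agent.Y731.FG.disc_nonneg (k := k) (F := F) (L := L)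
  -- the places
  have hfin1 : (unequal k t).Finite := Pool.Agent.Y731.FG.uneq_finite t
  have hfin2 : {P : Place k L | under F P ∈ S}.Finite := finite_over_set (Finset.finite_toSet S)
  have hfin3 : {P : Place k L | ∃ i, 0 < localHeight (E i) (d i) P x}.Finite := by
    have h5 : (⋃ i : Fin q, {P : Place k L | localHeight (E i) (d i) P x ≠ 0}).Finite :=
      Set.finite_iUnion fun i => Pool.Agent.Y731.FG.locH_finite hx0 (hEx i)
    refine h5.subset ?_
    rintro P ⟨i, hi⟩
    exact Set.mem_iUnion.2 ⟨i, hi.ne'⟩
  have hfinV : V.Finite := hfin1.subset fun P hP => hP.1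
  have hU1 : U ≤ V.ncard + c0 * f + N1 := by
    have h5 : unequal k t ⊆ (V ∪ {P : Place k L | under F P ∈ S}) ∪
        {P : Place k L | ∃ i, 0 < localHeight (E i) (d i) P x} := by
      intro P hP
      by_cases h6 : under F P ∈ S
      · exact Or.inl (Or.inr h6)
      by_cases h7 : ∃ i, 0 < localHeight (E i) (d i) P x
      · exact Or.inr h7
      · push Not at h7
        exact Or.inl (Or.inl ⟨hP, h6, h7⟩)
    have h6 := Set.ncard_le_ncard h5 ((hfinV.union hfin2).union hfin3)
    have h7 := Set.ncard_union_le (V ∪ {P : Place k L | under F P ∈ S})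
      {P : Place k L | ∃ i, 0 < localHeight (E i) (d i) P x}
    have h8 := Set.ncard_union_le V {P : Place k L | under F P ∈ S}
    have h9 : (({P : Place k L | under F P ∈ S}.ncard : ℕ) : ℤ) ≤ Module.finrank F L * c0 :=
      card_over_le S
    have h10 : (({P : Place k L | under F P ∈ S}.ncard : ℕ) : ℝ) ≤ f * c0 := by
      rw [hf]
      exact_mod_cast h9
    have h11 : U ≤ (V.ncard : ℝ) + ({P : Place k L | under F P ∈ S}.ncard : ℝ) + N1 := by
      rw [hU, hN1]
      exact_mod_cast h6.trans (h7.trans (by omega))
    linarith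
  have hV0 : (0 : ℝ) ≤ (V.ncard : ℝ) := Nat.cast_nonneg _
  have hN10 : (0 : ℝ) ≤ N1 := Nat.cast_nonneg _
  -- the final inequality
  have hfinal : H ≤ (2 + 2 * C) * (Pool.Agent.W603.LV.canDeg k L + N1 + V.ncard) +
      (|b| / a + 2 * C * (1 + C1 + c0) + 2 * C1) * f := by
    have g1 : H ≤ 2 * N1 + |b| / a * f + 2 * C * (f + disc k F L + U) := by
      have g2 : |b| / a * f = 2 * (|b| / (2 * a) * f) := by field_simp
      rw [g2]
      linarith
    have g3 : 2 * (C : ℝ) * (f + disc k F L + U) ≤
        2 * C * (f + (Pool.Agent.W603.LV.canDeg k L + C1 * f) + (V.ncard + c0 * f + N1)) :=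
      mul_le_mul_of_nonneg_left (by linarith) (by linarith)
    have g4 : -(2 * (C1 : ℝ) * f) ≤ 2 * Pool.Agent.W603.LV.canDeg k L := by linarith
    nlinarith
  have hdiv : logCanonicalHeight k F E d x A ≤
      (2 + 2 * C) * (chi k F L + truncatedCounting k E d x + nu S E d x t) +
        (|b| / a + 2 * C * (1 + C1 + c0) + 2 * C1) := by
    have g1 : logCanonicalHeight k F E d x A = H / f := rfl
    have g2 : chi k F L = (Pool.Agent.W603.LV.canDeg k L : ℝ) / f := rfl
    have g3 : truncatedCounting k E d x = N1 / f := rfl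
    have g4 : nu S E d x t = (V.ncard : ℝ) / f := rfl
    rw [g1, g2, g3, g4, div_le_iff₀ hfr0]
    have g5 : ((2 + 2 * C) * ((Pool.Agent.W603.LV.canDeg k L : ℝ) / f + N1 / f + V.ncard / f) +
        (|b| / a + 2 * C * (1 + C1 + c0) + 2 * C1)) * f =
        (2 + 2 * C) * (Pool.Agent.W603.LV.canDeg k L + N1 + V.ncard) +
      (|b| / a + 2 * C * (1 + C1 + c0) + 2 * C1) * f := by
      field_simp
    rw [g5]
    exact hfinal
  refine ⟨hdiv, fun hun => ?_⟩
  have h0 : nu S E d x t = 0 := by
    have g4 : nu S E d x t = (V.ncard : ℝ) / f := rfl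
    have g5 : V = ∅ := by
      rw [Set.eq_empty_iff_forall_notMem]
      rintro P ⟨hP1, hP2, hP3⟩
      exact hun P hP2 hP3 hP1
    rw [g4, g5, Set.ncard_empty]
    simp
  rw [h0, add_zero] at hdiv
  exact hdiv

end Pool.Agent.Results.MP_4dacf8_ag.SparsePoints
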